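import Pool.Agent.V1157.CB.Main

/-!
# Homologically trivial cycles on varieties with `H^(2m-1) = 0`: bounded images, commutation,
polynomial identities

Fix the dimension `n` and the codimension `m`. The following are equivalent:

1. `CH^m_hom(Y)_ℚ = 0` for all varieties `Y` of dimension `n` with `H^(2m-1)(Y) = 0`;
2. there is a number `D` such that on every variety `X` of dimension `n` the homologically trivial
   cycles of codimension `m` which come from varieties `Y` of dimension `n` with `H^(2m-1)(Y) = 0`
   through correspondences of degree zero contain at most `D` linearly independent ones;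
3. on every variety of dimension `n` the self-correspondences which factor through varieties `Y` of
   dimension `n` with `H^(2m-1)(Y) = 0` commute on the homologically trivial cycles of codimension
   `m`;
4. they satisfy some non-zero multilinear polynomial identity there.
-/

set_option autoImplicit false

open CategoryTheory AlgebraicGeometry

universe u v w

namespace Pool.Agent.Results.MP_32dfd1_ag.BoundedOrCommuting

open Pool.Agent.H914 Pool.Agent.H914.VarClass Pool.Agent.H914.VarClass.Obj Pool.Agent.W492.BB
  Pool.Agent.TH133 Pool.Agent.V1157.KF Pool.Agent.V1157.CB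

section defs

variable {k : Type u} [Field k] {𝒱 : VarClass k} {C : TheoryData.{u, v, 0} 𝒱 ℚ} {K : Type w}
    [Field K] (H : WeilTheoryData.{u, v, w} C K)

/-- `H^(2m-1)(Y) = 0`. -/
def OddZero (m : ℕ) (Y : 𝒱.Obj) : Prop := ∀ a : H.A Y, H.Deg (2 * (m : ℤ) - 1) a → a = 0

/-- `CH^m_hom(Y)_ℚ = 0` for all varieties `Y` of dimension `n` with `H^(2m-1)(Y) = 0`. -/
def Conj (n m : ℕ) : Prop :=
  ∀ (Y : 𝒱.Obj) (y : C.A Y), OddZero H m Y → Y.dim = n → C.Deg m y → H.cl y = 0 → y = 0

end defs

theorem result {k : Type u} [Field k] {𝒱 : VarClass k} {C : TheoryData.{u, v, 0} 𝒱 ℚ}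
    [IsChowProj C] {K : Type w} [Field K] {H : WeilTheoryData.{u, v, w} C K} [IsWeilProj H]
    (n m : ℕ)
    (hB : ∀ (S : 𝒱.Obj) (N : ℕ), OddZero H m S → S.dim = n → HasPower C n N S) :
    List.TFAE [Conj H n m, ∃ D, AtMost H (OddZero H m) n m D, Commuting H (OddZero H m) n m,
      ∃ (d : ℕ) (c : Equiv.Perm (Fin d) → ℚ), c ≠ 0 ∧ Identity H (OddZero H m) n m d c] := by
  have h1 : Conj H n m ↔ NoTrivialCycles H (OddZero H m) n m :=
    ⟨fun h Y y hP hY hy => h Y y hP hY hy.1 hy.2,
      fun h Y y hP hY hy1 hy2 => h Y y hP hY ⟨hy1, hy2⟩⟩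
  rw [h1]
  exact bloch_main hB

end Pool.Agent.Results.MP_32dfd1_ag.BoundedOrCommuting
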