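import Pool.Agent.V1178.FH.Main

/-!
# Rational homologically trivial cycles and free groups of motivic automorphisms

Fix the dimension `n`, the codimension `m` and a class `P` of varieties (for example the varieties
`X` over `ℚ̄` with `H^{2m-1}(X, ℚ) = 0`). If `W` is a self-correspondence of degree zero of a variety
`X` of dimension `n` which factors through a variety of dimension `n` in `P`, and `W ∘ W = 0`, then
`1 + W` is an automorphism of the Chow motive of `X`, and if the varieties in `P` have no
homologically trivial cycles of codimension `m` then it acts trivially on the homologically trivial
cycles of codimension `m` of `X`. It is shown that the varieties in `P` have no such cycles already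
if any two such automorphisms `1 + W_0`, `1 + W_1` satisfy a nontrivial relation there (which may
depend on `X`, `W_0`, `W_1`), and even if they have no free orbit on the lines of this space.
-/

set_option autoImplicit false

open CategoryTheory AlgebraicGeometry

universe u v w

namespace Pool.Agent.Results.MP_32dfd1_ag.FreeSubgroups

open Pool.Agent.H914 Pool.Agent.H914.VarClass Pool.Agent.H914.VarClass.Obj Pool.Agent.W492.BB
  Pool.Agent.TH133 Pool.Agent.V1157.KF Pool.Agent.V1157.RC Pool.Agent.V1178.FH
open Pool.Agent.V1157.CB (NoTrivialCycles)

/-- Let `P` be the class of the varieties `X` with `H^{2m-1}(X) = 0`. All varieties of positive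
dimension are assumed to have sufficiently general complete intersections in `S × S`
(`HasIntersection`, a consequence of Bertini's theorem). The following are equivalent, for `n ≥ 1`:

* the varieties `X` of dimension `n` with `H^{2m-1}(X) = 0` have no homologically trivial cycles of
  codimension `m` (rational coefficients) except zero;
* for every variety `X` of dimension `n` and all self-correspondences `W_0`, `W_1` of `X` of degree
  zero which factor through varieties of dimension `n` in `P` and satisfy `W_i ∘ W_i = 0`, the
  automorphisms `1 + W_0`, `1 + W_1` satisfy a nontrivial relation on the homologically trivial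
  cycles of codimension `m` on `X`;
* for all such `X`, `W_0`, `W_1` and each homologically trivial cycle `x` of codimension `m` on `X`
  there are a nontrivial element `w` of the free group of rank two and a rational number `q` with
  `w(1 + W_0, 1 + W_1) x = q x`. -/
theorem result {k : Type u} [Field k] {𝒱 : VarClass k} {C : TheoryData.{u, v, 0} 𝒱 ℚ}
    [IsChowProj C] {K : Type w} [Field K] (H : WeilTheoryData.{u, v, w} C K) [IsWeilProj H]
    (hI : ∀ S : 𝒱.Obj, 1 ≤ S.dim → HasIntersection C S.dim S S) (n m : ℕ) (hn : 1 ≤ n) :
    List.TFAE [NoTrivialCycles H (fun X => H.gr X (2 * m - 1) = ⊥) n m,
      NoFreePairs (fun X => H.gr X (2 * m - 1) = ⊥) n (homSub H m),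
      NoFreeLines (fun X => H.gr X (2 * m - 1) = ⊥) n (homSub H m)] :=
  main_stable (isStable_homSub H n m) (fun S _ hS => by
    subst hS
    exact hI S hn)

end Pool.Agent.Results.MP_32dfd1_ag.FreeSubgroups
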