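import Pool.Agent.V11182.GA.Main
import Pool.Agent.V1157.CB.Main

/-!
# Homologically trivial cycles on varieties with `H^(2m-1) = 0`: powers, eigenvalues, ranks and
group actions

Fix the dimension `n` and the codimension `m`. A self-correspondence of degree zero of a variety `X`
of dimension `n` is called admissible if it is a linear combination of correspondences which factor
through varieties `Y` of dimension `n` with `H^(2m-1)(Y) = 0`. It is shown that
`CH^m_hom(Y)_ℚ = 0` for all `Y` of dimension `n` with `H^(2m-1)(Y) = 0` follows from very weak bounds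
for the action of a single admissible correspondence on the homologically trivial cycles of
codimension `m` on an arbitrary `X`, and that it is equivalent to the statement that one group `G`,
which may be any group with a nontrivial finite dimensional representation over `ℚ`, for example
any finite group `G ≠ 1`, has no nontrivial actions on `CH^m_hom(X)_ℚ` by operators `1 + W_g`, `W_g`
admissible.
-/

set_option autoImplicit false

open CategoryTheory AlgebraicGeometry

universe u v w

namespace Pool.Agent.Results.MP_32dfd1_ag.GroupActionsAndPowers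

open Pool.Agent.H914 Pool.Agent.H914.VarClass Pool.Agent.H914.VarClass.Obj Pool.Agent.W492.BB
  Pool.Agent.TH133 Pool.Agent.V1157.KF Pool.Agent.V1157.CB Pool.Agent.V11182.GA
open Pool.Agent.V1157.RC (act_smul')

section defs

variable {k : Type u} [Field k] {𝒱 : VarClass k} {C : TheoryData.{u, v, 0} 𝒱 ℚ} {K : Type w}
    [Field K] (H : WeilTheoryData.{u, v, w} C K)

/-- `H^(2m-1)(Y) = 0`. -/
def OddZero (m : ℕ) (Y : 𝒱.Obj) : Prop := ∀ a : H.A Y, H.Deg (2 * (m : ℤ) - 1) a → a = 0

/-- `CH^m_hom(Y)_ℚ = 0` for all varieties `Y` of dimension `n` with `H^(2m-1)(Y) = 0`. -/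
def Conj (n m : ℕ) : Prop :=
  ∀ (Y : 𝒱.Obj) (y : C.A Y), OddZero H m Y → Y.dim = n → C.Deg m y → H.cl y = 0 → y = 0

/-- The homologically trivial cycles of codimension `m`. -/
def Triv (m : ℕ) (X : 𝒱.Obj) (x : C.A X) : Prop := C.Deg m x ∧ H.cl x = 0

/-- The admissible self-correspondences: the linear combinations of correspondences `X → Y → X` of
degree zero which factor through varieties `Y` of dimension `n` with `H^(2m-1)(Y) = 0`. -/
def Adm (n m : ℕ) (X : 𝒱.Obj) (W : C.A (X.prod X)) : Prop :=
  W ∈ Submodule.span ℚ {W' : C.A (X.prod X) | FactorsThrough C (OddZero H m) n X W'}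

end defs

theorem result {k : Type u} [Field k] {𝒱 : VarClass k} {C : TheoryData.{u, v, 0} 𝒱 ℚ}
    [IsChowProj C] {K : Type w} [Field K] {H : WeilTheoryData.{u, v, w} C K} [IsWeilProj H]
    (n m : ℕ)
    (hB : ∀ (S : 𝒱.Obj) (N : ℕ), OddZero H m S → S.dim = n → HasPower C n N S) :
    (∀ D : ℕ, 1 ≤ D → (Conj H n m ↔ ShortOrbits C (Triv H m) (Adm H n m) n D)) ∧
    (∀ D : ℕ, 1 ≤ D → (Conj H n m ↔ NoIndex C (Triv H m) (Adm H n m) n D)) ∧
    (∀ D : ℕ, (Conj H n m ↔ SmallRank C (Triv H m) (Adm H n m) n D)) ∧
    (∀ D : ℕ, 1 ≤ D → (Conj H n m ↔ FewEigenvalues C (Triv H m) (Adm H n m) n D)) ∧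
    (∀ (G : Type) [Monoid G] (N : ℕ) (ρ : G →* Matrix (Fin N) (Fin N) ℚ) (g : G), ρ g ≠ 1 →
      (Conj H n m ↔ TrivialActions C (Triv H m) (Adm H n m) n G)) ∧
    (∀ (G : Type) [Group G] [Finite G] [Nontrivial G],
      Conj H n m ↔ TrivialActions C (Triv H m) (Adm H n m) n G) := by
  refine main ?_ ?_
  · intro h X hX W hW α hα
    unfold Adm at hW
    induction hW using Submodule.span_induction with
    | mem W' hW' =>
      obtain ⟨Y, Γ, Δ, hP, hY, hΓ, hΔ, h1⟩ := hW'
      have h2 : HomTriv H m (C.act Γ α) := hom_act hX hΓ hα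
      rw [h1, C.act_comp, h Y _ hP hY h2.1 h2.2, C.act_map_zero]
    | zero => exact C.act_zero _
    | add x y _ _ hx hy =>
      have h2 : x + y = x - (-1 : ℚ) • y := by rw [neg_one_smul, sub_neg_eq_add]
      rw [h2, C.act_sub, act_smul', hx, hy, smul_zero, sub_zero]
    | smul c x _ hx => rw [act_smul', hx, smul_zero]
  · intro h
    unfold Conj at h
    push Not at h
    obtain ⟨S, x, hPS, hS, hx1, hx2, hx0⟩ := h
    refine units_of (H := H) (m := m) (fun h => h) ?_ ?_ hS (x := x) ⟨hx1, hx2⟩ hx0
      (fun N => hB S N hPS hS) ?_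
    · intro X Y f y hX hY hy
      exact HomTriv.pull hy
    · intro X Y f x hX hY hx
      exact HomTriv.push hX hY hx
    · intro V ι _ p c hV
      exact Submodule.sum_mem _ fun i _ => Submodule.sum_mem _ fun j _ =>
        Submodule.smul_mem _ _ (Submodule.subset_span (factors_mt hS hPS _ _))

end Pool.Agent.Results.MP_32dfd1_ag.GroupActionsAndPowers
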