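import Pool.Agent.H255R.RG.Red

/-!
# Surfaces with `H^3 = 0` and the Albanese kernels of all varieties dominated by products of curves
-/

open CategoryTheory AlgebraicGeometry

universe u v

namespace Pool.Agent.Results.MP_32dfd1_ag.RegularSurfaces

open Pool.Agent.H914 Pool.Agent.H914.VarClass Pool.Agent.H914.VarClass.Obj Pool.Agent.W492.BB
  Pool.Agent.W550.Corr Pool.Agent.TH133 Pool.Agent.Y152.AS Pool.Agent.H255R.PC
  Pool.Agent.H255R.RG

/-- Consider a class of varieties closed under products (for example all smooth projective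
varieties over `ℚ̄`), with its Chow groups with rational coefficients, the classes of its points,
the theorem of the cube, and the surfaces attached to the Galois closures of coverings of the line,
as in `HasGaloisQuotients`. The following statements are equivalent.

1. `CH_0(X)_ℚ = ℚ` (every zero-cycle of degree zero is zero) for every regular surface `X`
(`H^3(X) = 0`, equivalently the Albanese variety is trivial) which is dominated by a product of two
curves.
2. For every variety `X`, of any dimension, which is dominated by a product of curves, the Albanese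
map of `X` is injective: every zero-cycle of degree zero in the Albanese kernel is zero in
`CH_0(X)_ℚ`.
3. `a × b = 0` in `CH_0(S × T)_ℚ` for all divisor classes `a` and `b` of degree zero on curves `S`
and `T`. -/
theorem result {k : Type u} [Field k] {𝒱 : VarClass k} {C : TheoryData.{u, v, 0} 𝒱 ℚ}
    [IsChowProj C] {pt : ∀ X : 𝒱.Obj, Set (C.A X)} (hp : IsPoints C pt)
    (hcube : TheoremOfTheCube C) (hG : HasGaloisQuotients C) :
    List.TFAE [
      ∀ X : 𝒱.Obj, X.dim = 2 → IsDominatedByTwoCurves C X → IsRegularVar C X →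
        ∀ z : C.A X, DegZero C z → z = 0,
      ∀ X W : 𝒱.Obj, IsProdOfCurves W → IsRatDominatedBy C W X → AlbInjective C X,
      ∀ (S T : 𝒱.Obj) (a : C.A S) (b : C.A T), S.dim = 1 → T.dim = 1 → C.Deg 1 a → C.Deg 1 b →
        HasDegree C a 0 → HasDegree C b 0 → C.ext a b = 0] := by
  tfae_have 2 → 1 := by
    intro h X hX ⟨V, W, hV, hW, hd⟩ hr z hz
    exact h X (V.prod W) (.prod V W hV (.curve W hW)) hd z hz.2 (hr z hz)
  tfae_have 1 → 3 := by
    intro h S T a b hS hT ha hb ha0 hb0
    obtain ⟨X, hX⟩ := hG S T hS hT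
    obtain ⟨h2, h3, h4, A, B, m, h5⟩ := galois hp hcube hS hT hX
    have h6 : InAlbKer C (C.ext a b) := ext_inAlbKer hcube hS hT ha hb ha0 hb0
    have h7 := albTriv_of (by rw [h2]; norm_num) (act_alb h2 h5.degA h6)
    have h8 := h X h2 h3 h4 _ h7.degZero
    have h9 := h5.eq _ h6
    rw [h8, act_zero'] at h9
    rw [← one_smul ℚ (C.ext a b), ← inv_mul_cancel₀ h5.ne, mul_smul, ← h9, smul_zero]
  tfae_have 3 → 2 := by
    intro h X W hW ⟨Y, b, f, m, hb, hf, hm⟩ z hz0 hz
    have hz' : AlbTriv C z := ⟨hz0, hz⟩
    have h1 : AlbTriv C (C.push b (C.pull f z)) := (hz'.pull hf).push b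
    have h2 := (prodOfCurves hp h hW).2 _ h1.1 h1.2
    have h3 : C.pull b (C.push b (C.pull f z)) = C.pull f z := hb.2.2 _ (hz'.pull hf).2.deg
    rw [h2, map_zero] at h3
    have h4 := push_pull hf z
    rw [← h3, map_zero] at h4
    rw [← one_smul ℚ z, ← inv_mul_cancel₀ hm, mul_smul, ← h4, smul_zero]
  tfae_finish

end Pool.Agent.Results.MP_32dfd1_ag.RegularSurfaces
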